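import Pool.Agent.H.MP_dbc030_an.B

namespace Pool.Agent.Results.MP_dbc030_an.Yes

open MeasureTheory Set Filter Topology Polynomial
open Pool.Agent.H.MP_dbc030_an Pool.Agent.H.MP_da2ee6_an

theorem result (X : Set ℂ) (hX : IsCompact X) (f f' : ℂ → ℂ) (hf : ContinuousOn f X)
    (hd : ∀ a ∈ X, Tendsto (fun z => (f z - f a) / (z - a)) (𝓝[X \ {a}] a) (𝓝 (f' a))) :
    ∀ ε > 0, ∃ p q : ℂ[X], (∀ z ∈ X, q.eval z ≠ 0) ∧
      ∀ z ∈ X, ‖f z - p.eval z / q.eval z‖ < ε := fun ε ε0 => by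
  have := isCompact_iff_compactSpace.1 hX
  let V : Submodule ℂ C(X, ℂ) :=
    { carrier := {u | ∃ p q : ℂ[X], (∀ z ∈ X, q.eval z ≠ 0) ∧ ∀ z : X, u z = p.eval z.1 / q.eval z.1}
      add_mem' := fun ⟨p, q, h, e⟩ ⟨p', q', h', e'⟩ => ⟨p * q' + q * p', q * q', fun z hz => by
        simp [h z hz, h' z hz], fun z => by
          simp [e, e', div_add_div _ _ (h z z.2) (h' z z.2)]⟩
      zero_mem' := ⟨0, 1, by simp, by simp⟩
      smul_mem' := fun c _ ⟨p, q, h, e⟩ => ⟨c • p, q, h, fun z => by simp [e, mul_div_assoc]⟩ }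
  let g : C(X, ℂ) := ⟨X.domRestrict f, hf.domRestrict⟩
  suffices h : g ∈ closure (V : Set C(X, ℂ)) by
    obtain ⟨u, ⟨p, q, h, e⟩, hu⟩ := Metric.mem_closure_iff.1 h ε ε0
    refine ⟨p, q, h, fun z hz => ?_⟩
    rw [← e ⟨z, hz⟩, ← dist_eq_norm]
    exact (ContinuousMap.dist_apply_le_dist (f := g) ⟨z, hz⟩).trans_lt hu
  by_contra h
  obtain ⟨Λ, u, h1, h2⟩ := RCLike.geometric_hahn_banach_closed_point (𝕜 := ℂ)
    ((V.restrictScalars ℝ).convex.closure) isClosed_closure h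
  have z : ∀ v ∈ V, Λ v = 0 := fun v hv => by_contra fun q => by
    have := h1 _ (subset_closure (V.smul_mem ((u : ℂ) / Λ v) hv))
    simp [div_mul_cancel₀ _ q] at this
  borelize (X × Circle)
  obtain ⟨μ, _, hμ⟩ := crep Λ
  have e := core (μ := μ) (F := fun k : X × Circle => k.1) (β := fun k => k.2) (by fun_prop)
    (by fun_prop) (fun k => k.2.norm_coe.le) hX (fun k => k.1.2) (fun w hw => by
      have n : ∀ z ∈ X, z - w ≠ 0 := fun z hz => sub_ne_zero.2 fun q => hw (q ▸ hz)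
      exact (hμ ⟨fun z => (z.1 - w)⁻¹, Continuous.inv₀ (by fun_prop) fun z => n z z.2⟩).symm.trans
        (z _ ⟨1, Polynomial.X - C w, by simpa using n, by simp⟩)) hf hd
  have := h1 0 (subset_closure V.zero_mem)
  rw [(hμ g).trans e] at h2
  simp only [map_zero] at this h2
  linarith

end Pool.Agent.Results.MP_dbc030_an.Yes
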